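import Mathlib
import Pool.Agent.H33.OwaDefs

namespace Pool.Agent.Results.MP_57045c_lc.Q1
open Pool.Agent.H33.Owa

variable {n k : ℕ} {m : Fin k → ℕ}

def al (n : ℕ) (j : Fin n) : ℝ := if n = 2 ∧ j.1 = 0 then 2 else 1

def ind (A : Ballots n k m) (i : Fin k) (c : Fin (m i)) (v : Fin n) : ℕ :=
  if c ∈ A i v then 1 else 0

lemma ind_le (A : Ballots n k m) (i : Fin k) (c : Fin (m i)) (v : Fin n) : ind A i c v ≤ 1 := by
  unfold ind; split_ifs <;> simp

lemma sat_succ (A : Ballots n k m) (w : Outcome k m) (i : Fin k) (v : Fin n) :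
    sat A w (i.1 + 1) v = sat A w i.1 v + ind A i (w i) v := by
  simp only [sat, ind, Finset.card_filter]
  rw [← Finset.add_sum_erase _ _ (Finset.mem_univ i),
    ← Finset.add_sum_erase _ _ (Finset.mem_univ i)]
  have : ∀ j ∈ Finset.univ.erase i, (if j.1 < i.1 + 1 ∧ w j ∈ A j v then 1 else 0) =
      if j.1 < i.1 ∧ w j ∈ A j v then 1 else 0 := by
    intro j hj
    have h : j.1 ≠ i.1 := fun h => Finset.ne_of_mem_erase hj (Fin.ext h)
    have : j.1 < i.1 + 1 ↔ j.1 < i.1 := by omega
    simp only [this]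
  rw [Finset.sum_congr rfl this]
  simp [add_comm]

lemma sat_upd (A : Ballots n k m) (w : Outcome k m) (i : Fin k) (c : Fin (m i)) :
    sat A (Function.update w i c) (i.1 + 1) = fun v => sat A w i.1 v + ind A i c v := by
  funext v
  rw [sat_succ, Function.update_self]
  congr 1
  unfold sat
  congr 1
  ext j
  simp only [Finset.mem_filter, Finset.mem_univ, true_and]
  refine and_congr_right fun h => ?_
  rw [Function.update_of_ne (fun e => by rw [e] at h; exact lt_irrefl _ h)]

lemma owa_ne (hn : n ≠ 2) (x : Fin n → ℕ) : owa (al n) x = ((∑ v, x v : ℕ) : ℝ) := by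
  simp only [owa, al, hn, false_and, if_false, one_mul]
  rw [Equiv.sum_comp (Tuple.sort x) (fun v => (x v : ℝ))]; simp

lemma owa_two (x : Fin 2 → ℕ) : owa (al 2) x = ((x 0 + x 1 + min (x 0) (x 1) : ℕ) : ℝ) := by
  have h1 := Tuple.monotone_sort x (show (0 : Fin 2) ≤ 1 by decide)
  have h2 := Equiv.sum_comp (Tuple.sort x) x
  simp only [Fin.sum_univ_two, Function.comp] at h1 h2
  have h3 : x (Tuple.sort x 0) = x 0 ∨ x (Tuple.sort x 0) = x 1 := by
    generalize Tuple.sort x 0 = j; fin_cases j <;> simp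
  have : x 0 + x 1 + min (x 0) (x 1) = 2 * x (Tuple.sort x 0) + x (Tuple.sort x 1) := by omega
  rw [this]; simp [owa, al]

lemma ar {a b p q x1 y1 x2 y2 : ℕ} (l1 : x1 ≤ 1) (l2 : y1 ≤ 1) (l3 : x2 ≤ 1) (l4 : y2 ≤ 1)
    (c : a + x2 + (b + y2) + min (a + x2) (b + y2) ≤ a + x1 + (b + y1) + min (a + x1) (b + y1))
    (d : p + x1 + (q + y1) + min (p + x1) (q + y1) ≤ p + x2 + (q + y2) + min (p + x2) (q + y2))
    (e : a + x2 + (b + y2) + min (a + x2) (b + y2) < a + x1 + (b + y1) + min (a + x1) (b + y1) ∨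
      p + x1 + (q + y1) + min (p + x1) (q + y1) < p + x2 + (q + y2) + min (p + x2) (q + y2))
    (h : (p + 1 = a ∧ q = b) ∨ (p = a ∧ q + 1 = b)) :
    (p + x2 + 1 = a + x1 ∧ q + y2 = b + y1) ∨ (p + x2 = a + x1 ∧ q + y2 + 1 = b + y1) := by
  rcases h with ⟨rfl, rfl⟩ | ⟨rfl, rfl⟩ <;>
    interval_cases x1 <;> interval_cases y1 <;> interval_cases x2 <;> interval_cases y2 <;> omega

lemma two (A B : Ballots 2 k m) (w w' : Outcome k m) (v u : Fin 2) (i : Fin k)
    (hvu : ∀ x : Fin 2 → ℕ, owa (al 2) x = ((x v + x u + min (x v) (x u) : ℕ) : ℝ))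
    (huv : u ≠ v) (hA : IsOutcome (al 2) A w) (hB : IsOutcome (al 2) B w')
    (hd : ∀ j u, ¬ (j = i ∧ u = v) → B j u = A j u)
    (h1 : w i ∈ A i v) (h2 : w i ∉ B i v) (h3 : w' i = w i) (j : ℕ) (hj : j ≤ k) :
    (j ≤ i.1 ∧ sat B w' j v = sat A w j v ∧ sat B w' j u = sat A w j u ∧
      sat A w' j v = sat B w' j v) ∨ (i.1 < j ∧ sat A w' j v = sat B w' j v + 1 ∧
      ((sat B w' j v + 1 = sat A w j v ∧ sat B w' j u = sat A w j u) ∨
        (sat B w' j v = sat A w j v ∧ sat B w' j u + 1 = sat A w j u))) := by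
  induction j with
  | zero => left; simp [sat]
  | succ j ih =>
    have ih := ih (by omega)
    obtain ⟨j, rfl⟩ : ∃ j' : Fin k, j'.1 = j := ⟨⟨j, hj⟩, rfl⟩
    simp only [sat_succ]
    by_cases hji : j = i
    · subst hji
      have e1 : ind A j (w j) v = 1 := if_pos h1
      have e2 : ind B j (w j) v = 0 := if_neg h2
      have e3 : ind B j (w j) u = ind A j (w j) u := by
        simp only [ind, hd j u (fun h => huv h.2)]
      rw [h3]; omega
    · have hne : j.1 ≠ i.1 := fun h => hji (Fin.ext h)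
      have e : ∀ c x, ind B j c x = ind A j c x := fun c x => by
        simp only [ind, hd j x (fun h => hji h.1)]
      have a := hA j (w' j)
      have b := hB j (w j)
      simp only [score, sat_upd, hvu, Nat.cast_lt, Nat.cast_inj, e] at a b
      simp only [e]
      have l1 := ind_le A j (w j) v
      have l2 := ind_le A j (w j) u
      have l3 := ind_le A j (w' j) v
      have l4 := ind_le A j (w' j) u
      by_cases hw : w' j = w j
      · rw [hw]; clear a b; omega
      · have : ¬ (w j ≤ w' j ∧ w' j ≤ w j) := fun h => hw (le_antisymm h.2 h.1)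
        have c := a.elim le_of_lt fun h => h.1.le
        have d := b.elim le_of_lt fun h => h.1.le
        have e := a.elim Or.inl fun a => b.elim Or.inr fun b => absurd ⟨a.2, b.2⟩ this
        rcases ih with ⟨i1, i2, i3, i4⟩ | ⟨i1, i2, i3⟩
        · exfalso; rw [i2, i3] at d e
          rcases e with e | e
          exacts [absurd d (not_le.2 e), absurd c (not_le.2 e)]
        · exact Or.inr ⟨Nat.lt_succ_of_lt i1, by rw [i2]; ring, ar l1 l2 l3 l4 c d e i3⟩

theorem result : ∃ α : (n : ℕ) → Fin n → ℝ, IsRule α ∧ (∃ n i j, α n i ≠ α n j) ∧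
    NeverHarmful α := by
  refine ⟨al, ⟨fun n => ?_, fun n j => ?_⟩, ⟨2, 0, 1, by simp [al]⟩, ?_⟩
  · unfold al; split_ifs <;> norm_num
  · unfold al; split_ifs <;> norm_num
  intro n k m A B w w' v i hA hB hd h1 h2 h3
  by_cases hn : n = 2
  · subst hn
    obtain ⟨u, huv, hvu⟩ : ∃ u : Fin 2, u ≠ v ∧ ∀ x : Fin 2 → ℕ,
        owa (al 2) x = ((x v + x u + min (x v) (x u) : ℕ) : ℝ) := by
      fin_cases v
      · exact ⟨1, by decide, owa_two⟩
      · exact ⟨0, by decide, fun x => by simp [owa_two, add_comm, min_comm]⟩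
    have := two A B w w' v u i hvu huv hA hB hd h1 h2 h3 k le_rfl
    omega
  · have : w' = w := by
      funext j
      by_cases hji : j = i
      · subst hji; exact h3
      have e : ∀ c x, ind B j c x = ind A j c x := fun c x => by
        simp only [ind, hd j x (fun h => hji h.1)]
      have a := hA j (w' j)
      have b := hB j (w j)
      simp only [score, sat_upd, owa_ne hn, Nat.cast_lt, Nat.cast_inj, e,
        Finset.sum_add_distrib] at a b
      omega
    rw [this]

end Pool.Agent.Results.MP_57045c_lc.Q1
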